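import Pool.Agent.W401.SSS.Final

/-!
# Trace-minimising arithmetic measures have zero logarithmic energy

Full (affirmative) answer of Q1 of MP_1ddd1c_nt.
-/

open MeasureTheory Polynomial Pool.Agent.W401.SSS

namespace Pool.Agent.Results.MP_1ddd1c_nt.ZeroEnergy

/-- If `μ` is an arithmetic probability measure with compact support in `[0,∞)` whose mean is the
Schur-Siegel-Smyth constant, then its logarithmic energy is `0` (the diagonal carries no mass, the
energy integral converges absolutely, and its value is `0`). -/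
theorem result (μ : Measure ℝ) (hμ : IsProbabilityMeasure μ)
    (hK : ∃ K : Set ℝ, IsCompact K ∧ K ⊆ Set.Ici 0 ∧ μ Kᶜ = 0)
    (hA : Arith μ) (hm : ∫ x, x ∂μ = lamSSS) :
    (μ.prod μ) {p : ℝ × ℝ | p.1 = p.2} = 0 ∧
    Integrable (fun p : ℝ × ℝ => Real.log |p.1 - p.2|) (μ.prod μ) ∧
    ∫ p : ℝ × ℝ, Real.log |p.1 - p.2| ∂(μ.prod μ) = 0 := by
  obtain ⟨B, -, hB⟩ := on_of_compact hμ hK
  obtain ⟨-, h2, h3⟩ := facts.2.2 B μ hB hA hm
  exact ⟨h2.1, h2.2, h3⟩

end Pool.Agent.Results.MP_1ddd1c_nt.ZeroEnergy
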